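import Pool.Agent.Lib.MP_b5021c_nt.IfaceEV
import Pool.Agent.Lib.MP_b5021c_nt.B.H42.G3c

/-!
# MP_b5021c_nt, stage 3, chapter EV: row EV_LSN (the number of small non-pure factors)
-/

namespace Pool.Agent.B5.H90

open Pool.Agent.B5

theorem lsn (hL : LsbS) (hA : A2S) (hM : MmulS) : LsnS := by
  intro O _ _ _ _ P L _ _ _ _ _ phi D S i0 eta h c n G fd
  classical
  obtain ⟨q, hq, hle⟩ := hL O P L phi D S i0 eta h c n G fd
  have hD : D.coeff 0 ≠ 0 := fd.cc.dd.st.1
  have hDS : D.coeff S ≠ 0 := fd.cc.ray.1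
  have hV : D.coeff 0 + (eta : RO O) * D.coeff S ≠ 0 := fd.cc.v0
  have hG : ∀ i ∈ big G, (G i).coeff 0 ≠ 0 := fun i _ => (fd.st i).1
  have hP : ∏ i ∈ big G, (G i).coeff 0 ≠ 0 := Finset.prod_ne_zero_iff.2 hG
  set pl : Option {l // l ∈ snp phi S i0 G} → RO O := fun o =>
    match o with
    | none => D.coeff S * D.coeff S
    | some l => q l.1 * (∏ i ∈ big G, (G i).coeff 0) *
        (D.coeff 0 + (eta : RO O) * D.coeff S) with hpl
  have hplne : ∀ o, pl o ≠ 0 := by
    intro o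
    rcases o with _ | l
    · exact mul_ne_zero hDS hDS
    · exact mul_ne_zero (mul_ne_zero (hq l.1) hP) hV
  have h1 := hA O (Option {l // l ∈ snp phi S i0 G}) pl (D.coeff 0 * D.coeff 0) 1
    (mul_ne_zero hD hD) hplne one_pos (fun z => by
      rw [map_mul (evR z) (D.coeff 0), norm_mul, one_mul, Fintype.sum_option]
      refine le_trans (le_of_eq ?_) ((hle z).trans (le_of_eq (sq _)))
      rw [add_comm]
      congr 1
      · rw [← Finset.sum_coe_sort (snp phi S i0 G)
          (fun l => ‖evR z (q l)‖ * ∏ i ∈ big G, ‖evR z ((G i).coeff 0)‖), Finset.sum_mul]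
        refine Finset.sum_congr rfl fun l _ => ?_
        simp only [hpl]
        rw [map_mul, map_mul, norm_mul, norm_mul, map_prod, norm_prod]
      · simp only [hpl]
        rw [map_mul (evR z), norm_mul, sq])
  rw [one_mul, (hM O).1 _ _ hD hD, ← sq, Fintype.sum_option] at h1
  have h0 : M (pl none) = M (D.coeff S) ^ 2 := by
    simp only [hpl]
    rw [(hM O).1 _ _ hDS hDS, sq]
  rw [h0] at h1
  have h2 : ∀ l : {l // l ∈ snp phi S i0 G}, (∏ i ∈ big G, M ((G i).coeff 0)) *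
      M (D.coeff 0 + (eta : RO O) * D.coeff S) ≤ M (pl (some l)) := by
    intro l
    simp only [hpl]
    rw [(hM O).1 _ _ (mul_ne_zero (hq l.1) hP) hV, (hM O).1 _ _ (hq l.1) hP,
      H42.M_prod hM O (big G) (fun i => (G i).coeff 0) hG]
    have h3 : 0 ≤ ∏ i ∈ big G, M ((G i).coeff 0) :=
      Finset.prod_nonneg fun i _ => le_trans zero_le_one ((hM O).2.1 _)
    have h4 : 0 ≤ M (D.coeff 0 + (eta : RO O) * D.coeff S) :=
      le_trans zero_le_one ((hM O).2.1 _)
    exact mul_le_mul_of_nonneg_right (le_mul_of_one_le_left h3 ((hM O).2.1 _)) h4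
  have h5 : ((snp phi S i0 G).card : ℝ) * (∏ i ∈ big G, M ((G i).coeff 0)) *
        M (D.coeff 0 + (eta : RO O) * D.coeff S) ≤
      ∑ l : {l // l ∈ snp phi S i0 G}, M (pl (some l)) := by
    calc ((snp phi S i0 G).card : ℝ) * (∏ i ∈ big G, M ((G i).coeff 0)) *
        M (D.coeff 0 + (eta : RO O) * D.coeff S)
      = ∑ _l : {l // l ∈ snp phi S i0 G}, (∏ i ∈ big G, M ((G i).coeff 0)) *
        M (D.coeff 0 + (eta : RO O) * D.coeff S) := by
          rw [Finset.sum_const, Finset.card_univ, Fintype.card_coe, nsmul_eq_mul, mul_assoc]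
      _ ≤ _ := Finset.sum_le_sum fun l _ => h2 l
  linarith

end Pool.Agent.B5.H90
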